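import Mathlib

set_option autoImplicit false

/-! # Locally finite groups; groups with few cosets inverted by an automorphism -/

universe u v

namespace Pool.Agent.FourGp.H99

open scoped Pointwise

/-- Locally finite groups. -/
def LF (G : Type u) [Group G] : Prop := ∀ S : Subgroup G, S.FG → Finite S

theorem finite_of_index {S : Type u} [Group S] (K : Subgroup S) [K.FiniteIndex] [Finite K] :
    Finite S := by
  have h1 : Finite (S ⧸ K) := inferInstance
  exact Finite.of_equiv _ (Subgroup.groupEquivQuotientProdSubgroup (s := K)).symm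

theorem finite_core {S : Type u} {A : Type v} [Group S] [Group A] [Group.FG S] (K : Subgroup S)
    [K.FiniteIndex] (f : K →* A) (hf : Function.Injective f) (hA : LF A) : Finite S := by
  have h1 : Group.FG K := inferInstance
  have h2 : Group.FG f.range := inferInstance
  have h3 : Finite f.range := hA _ ((Group.fg_iff_subgroup_fg _).1 h2)
  have h4 : Finite K := by
    refine Finite.of_injective (fun k : K => (⟨f k, k, rfl⟩ : f.range)) ?_
    intro x y hxy
    exact hf (congrArg Subtype.val hxy)
  exact finite_of_index K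

theorem LF_of_surj {A : Type u} {B : Type v} [Group A] [Group B] (f : A →* B)
    (hf : Function.Surjective f) (hA : LF A) : LF B := by
  classical
  intro S hS
  obtain ⟨T, hT⟩ := hS
  have h1 : Finite (Subgroup.closure ((T.image (Function.surjInv hf) : Finset A) : Set A)) :=
    hA _ ⟨_, rfl⟩
  have h2 : (Subgroup.closure ((T.image (Function.surjInv hf) : Finset A) : Set A)).map f = S := by
    rw [MonoidHom.map_closure, ← hT]
    congr 1
    rw [Finset.coe_image, Set.image_image]
    simp [Function.surjInv_eq]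
  have h3 := (Set.toFinite ((Subgroup.closure ((T.image (Function.surjInv hf) : Finset A) :
    Set A) : Subgroup A) : Set A)).image f
  have h4 : (f '' ((Subgroup.closure ((T.image (Function.surjInv hf) : Finset A) :
    Set A) : Subgroup A) : Set A)) = (S : Set B) := by
    rw [← h2, Subgroup.coe_map]
  rw [h4] at h3
  exact h3.to_subtype

theorem LF_of_finiteIndex {G : Type u} [Group G] (H : Subgroup G) [H.FiniteIndex] (hH : LF H) :
    LF G := by
  intro S hS
  have h1 : Group.FG S := (Group.fg_iff_subgroup_fg S).2 hS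
  refine finite_core (H.subgroupOf S) (A := H) ((S.subtype.comp
    (H.subgroupOf S).subtype).codRestrict H ?_) ?_ hH
  · intro x; exact x.2
  · intro x y hxy
    have := congrArg (fun z : H => (z : G)) hxy
    exact Subtype.ext (Subtype.ext this)

theorem LF_ext {G : Type u} [Group G] (N : Subgroup G) [N.Normal] (hN : LF N)
    (hQ : LF (G ⧸ N)) : LF G := by
  intro S hS
  have h1 : Group.FG S := (Group.fg_iff_subgroup_fg S).2 hS
  set f : S →* G ⧸ N := (QuotientGroup.mk' N).comp S.subtype with hf
  have h2 : Group.FG f.range := inferInstance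
  have h3 : Finite f.range := hQ _ ((Group.fg_iff_subgroup_fg _).1 h2)
  refine finite_core f.ker (A := N) ((S.subtype.comp f.ker.subtype).codRestrict N ?_) ?_ hN
  · intro x
    have hx : f x.1 = 1 := x.2
    have hx' : (QuotientGroup.mk' N) (x.1.1) = 1 := hx
    rw [← MonoidHom.mem_ker, QuotientGroup.ker_mk'] at hx'
    exact hx'
  · intro x y hxy
    have := congrArg (fun z : N => (z : G)) hxy
    exact Subtype.ext (Subtype.ext this)

open scoped IsMulCommutative in
/-- Periodic groups in which every centralizer has finite index. -/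
theorem LF_of_fc {D : Type u} [Group D] (tor : ∀ g : D, ∃ n : ℕ, 0 < n ∧ g ^ n = 1)
    (h : ∀ x : D, (Subgroup.centralizer {x}).FiniteIndex) : LF D := by
  intro S hS
  have h1 : Group.FG S := (Group.fg_iff_subgroup_fg S).2 hS
  obtain ⟨T, hT⟩ := hS
  have h2 : (⨅ t ∈ T, Subgroup.centralizer ({t} : Set D)).FiniteIndex :=
    Subgroup.finiteIndex_iInf' (fun t : D => Subgroup.centralizer ({t} : Set D)) fun t _ => h t
  have h3 : (Subgroup.center S).FiniteIndex := by
    refine Subgroup.finiteIndex_of_le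
      (H := (⨅ t ∈ T, Subgroup.centralizer ({t} : Set D)).subgroupOf S) ?_
    intro x hx
    rw [Subgroup.mem_subgroupOf] at hx
    rw [Subgroup.mem_center_iff]
    intro g
    have hg : g.1 ∈ Subgroup.closure (T : Set D) := by rw [hT]; exact g.2
    have hx' : ∀ t ∈ T, (t : D) * x.1 = x.1 * t := by
      intro t ht
      rw [Subgroup.mem_iInf] at hx
      have h4 := hx t
      rw [Subgroup.mem_iInf] at h4
      have h5 := h4 ht
      rw [Subgroup.mem_centralizer_iff] at h5
      exact h5 t rfl
    have h6 : g.1 * x.1 = x.1 * g.1 := by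
      refine Subgroup.closure_induction (p := fun u _ => u * x.1 = x.1 * u) ?_ ?_ ?_ ?_ hg
      · intro t ht; exact hx' t ht
      · rw [one_mul, mul_one]
      · intro u v _ _ hu hv
        rw [mul_assoc, hv, ← mul_assoc, hu, mul_assoc]
      · intro u _ hu
        have h7 : Commute u x.1 := hu
        exact h7.inv_left
    exact Subtype.ext h6
  have h4 : Group.FG (Subgroup.center S) := inferInstance
  have h5 : Finite (Subgroup.center S) := by
    refine CommGroup.finite_of_fg_isMulTorsion (G := Subgroup.center S) ?_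
    intro z
    obtain ⟨n, hn, hz⟩ := tor z.1.1
    refine isOfFinOrder_iff_pow_eq_one.2 ⟨n, hn, ?_⟩
    apply Subtype.ext
    apply Subtype.ext
    exact hz
  exact finite_of_index (Subgroup.center S)

/-- The elements with centralizer of finite index. -/
def Delta (A : Type u) [Group A] : Subgroup A where
  carrier := {x | (Subgroup.centralizer {x}).FiniteIndex}
  mul_mem' := by
    intro x y hx hy
    have h1 : (Subgroup.centralizer {x} : Subgroup A).FiniteIndex := hx
    have h2 : (Subgroup.centralizer {y} : Subgroup A).FiniteIndex := hy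
    refine Subgroup.finiteIndex_of_le
      (H := Subgroup.centralizer {x} ⊓ Subgroup.centralizer {y}) ?_
    intro g hg
    rw [Subgroup.mem_inf] at hg
    have e1 : Commute g x := Subgroup.mem_centralizer_singleton_iff.1 hg.1
    have e2 : Commute g y := Subgroup.mem_centralizer_singleton_iff.1 hg.2
    exact Subgroup.mem_centralizer_singleton_iff.2 (e1.mul_right e2)
  one_mem' := by
    have h1 : (⊤ : Subgroup A).FiniteIndex := inferInstance
    refine Subgroup.finiteIndex_of_le (H := ⊤) ?_
    intro g _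
    exact Subgroup.mem_centralizer_singleton_iff.2 (Commute.one_right g)
  inv_mem' := by
    intro x hx
    have h1 : (Subgroup.centralizer {x} : Subgroup A).FiniteIndex := hx
    refine Subgroup.finiteIndex_of_le (H := Subgroup.centralizer {x}) ?_
    intro g hg
    have e1 : Commute g x := Subgroup.mem_centralizer_singleton_iff.1 hg
    exact Subgroup.mem_centralizer_singleton_iff.2 e1.inv_right

theorem LF_Delta {A : Type u} [Group A] (tor : ∀ g : A, ∃ n : ℕ, 0 < n ∧ g ^ n = 1) :
    LF (Delta A) := by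
  refine LF_of_fc (fun g => ?_) fun x => ?_
  · obtain ⟨n, hn, h⟩ := tor g.1
    exact ⟨n, hn, Subtype.ext h⟩
  · have h1 : (Subgroup.centralizer {x.1} : Subgroup A).FiniteIndex := x.2
    refine Subgroup.finiteIndex_of_le (H := (Subgroup.centralizer {x.1}).subgroupOf (Delta A)) ?_
    intro g hg
    rw [Subgroup.mem_subgroupOf, Subgroup.mem_centralizer_singleton_iff] at hg
    exact Subgroup.mem_centralizer_singleton_iff.2 (Subtype.ext hg)

/-- A periodic group `A` with an endomorphism `σ`, such that finitely many right translates of a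
set of elements inverted by `σ` cover `A`, is locally finite. -/
theorem shunkov {A : Type u} [Group A] (tor : ∀ g : A, ∃ n : ℕ, 0 < n ∧ g ^ n = 1)
    (σ : A →* A) (C : Set A) (hC : C.Finite) (J : Set A) (hJ : ∀ v ∈ J, σ v = v⁻¹)
    (dec : ∀ g : A, ∃ w ∈ C, ∃ v ∈ J, g = w * v) : LF A := by
  classical
  -- the translates by `x`
  have key : ∀ x : A, ∃ p ∈ C ×ˢ C, x * p.2 * p.1⁻¹ ∈ Delta A := by
    intro x
    -- for each pair, the set of `g`
    set T : A × A → A → Prop := fun p g => p.1⁻¹ * g ∈ J ∧ (x * p.2)⁻¹ * g ∈ J with hT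
    have h1 : ∀ (p : A × A) (g g₀ : A), T p g → T p g₀ →
        (x * p.2 * p.1⁻¹) * (g * g₀⁻¹) = (g * g₀⁻¹) * (x * p.2 * p.1⁻¹) := by
      intro p g g₀ hg hg₀
      have e : ∀ g, T p g → g⁻¹ * (x * p.2 * p.1⁻¹) * g = (σ (x * p.2))⁻¹ * σ p.1 := by
        intro g hg
        have e1 := hJ _ hg.1
        have e2 := hJ _ hg.2
        rw [map_mul, map_inv] at e1 e2
        have e3 : σ g = σ p.1 * (p.1⁻¹ * g)⁻¹ := by rw [← e1]; group
        have e4 : σ g = σ (x * p.2) * ((x * p.2)⁻¹ * g)⁻¹ := by rw [← e2]; group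
        rw [e3] at e4
        calc g⁻¹ * (x * p.2 * p.1⁻¹) * g
            = (σ (x * p.2))⁻¹ * (σ (x * p.2) * ((x * p.2)⁻¹ * g)⁻¹) * (p.1⁻¹ * g) := by group
          _ = (σ (x * p.2))⁻¹ * (σ p.1 * (p.1⁻¹ * g)⁻¹) * (p.1⁻¹ * g) := by rw [← e4]
          _ = (σ (x * p.2))⁻¹ * σ p.1 := by group
      have e5 := (e g hg).trans (e g₀ hg₀).symm
      calc (x * p.2 * p.1⁻¹) * (g * g₀⁻¹) = g * (g⁻¹ * (x * p.2 * p.1⁻¹) * g) * g₀⁻¹ := by group
        _ = g * (g₀⁻¹ * (x * p.2 * p.1⁻¹) * g₀) * g₀⁻¹ := by rw [e5]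
        _ = (g * g₀⁻¹) * (x * p.2 * p.1⁻¹) := by group
    -- choose representatives
    have h2 : ∀ p : A × A, ∃ g₀ : A, ∀ g, T p g → T p g₀ := by
      intro p
      by_cases h : ∃ g, T p g
      · obtain ⟨g₀, hg₀⟩ := h
        exact ⟨g₀, fun _ _ => hg₀⟩
      · exact ⟨1, fun g hg => absurd ⟨g, hg⟩ h⟩
    choose g₀ hg₀ using h2
    have hfin : (C ×ˢ C).Finite := hC.prod hC
    have hcov : ⋃ p ∈ hfin.toFinset, (g₀ p)⁻¹ •
        ((Subgroup.centralizer {x * p.2 * p.1⁻¹} : Subgroup A) : Set A) = Set.univ := by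
      rw [Set.eq_univ_iff_forall]
      intro y
      obtain ⟨w, hw, v, hv, e⟩ := dec y⁻¹
      obtain ⟨w', hw', v', hv', e'⟩ := dec (x⁻¹ * y⁻¹)
      have hTy : T (w, w') y⁻¹ := by
        refine ⟨?_, ?_⟩
        · have : w⁻¹ * y⁻¹ = v := by rw [e]; group
          rw [this]; exact hv
        · have : (x * w')⁻¹ * y⁻¹ = v' := by
            calc (x * w')⁻¹ * y⁻¹ = w'⁻¹ * (x⁻¹ * y⁻¹) := by group
              _ = v' := by rw [e']; group
          rw [this]; exact hv'
      rw [Set.mem_iUnion]
      refine ⟨(w, w'), ?_⟩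
      rw [Set.mem_iUnion]
      refine ⟨hfin.mem_toFinset.2 ⟨hw, hw'⟩, ?_⟩
      rw [Set.mem_smul_set_iff_inv_smul_mem, inv_inv, smul_eq_mul, SetLike.mem_coe,
        Subgroup.mem_centralizer_singleton_iff]
      have h3 := h1 (w, w') _ _ (hg₀ _ _ hTy) hTy
      have e2 : g₀ (w, w') * y = g₀ (w, w') * y⁻¹⁻¹ := by rw [inv_inv]
      rw [e2]
      exact h3.symm
    obtain ⟨p, hp, hfi⟩ := Subgroup.exists_finiteIndex_of_leftCoset_cover hcov
    exact ⟨p, hfin.mem_toFinset.1 hp, hfi⟩
  have hD : (Delta A).FiniteIndex := by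
    have hfin : (C ×ˢ C).Finite := hC.prod hC
    have hcov : ⋃ p ∈ hfin.toFinset, (p.1 * p.2⁻¹)⁻¹⁻¹ •
        ((Delta A : Subgroup A) : Set A) = Set.univ := by
      rw [Set.eq_univ_iff_forall]
      intro y
      obtain ⟨p, hp, h1⟩ := key y⁻¹
      rw [Set.mem_iUnion]
      refine ⟨(p.2, p.1), ?_⟩
      rw [Set.mem_iUnion]
      refine ⟨hfin.mem_toFinset.2 ⟨hp.2, hp.1⟩, ?_⟩
      rw [Set.mem_smul_set_iff_inv_smul_mem, smul_eq_mul, SetLike.mem_coe]
      have h2 := (Delta A).inv_mem h1
      have e : (y⁻¹ * p.2 * p.1⁻¹)⁻¹ = (p.2, p.1).2 * (p.2, p.1).1⁻¹ * y := by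
        simp only []
        group
      rw [e] at h2
      have e2 : ((((p.2, p.1).1 * (p.2, p.1).2⁻¹)⁻¹)⁻¹)⁻¹ * y =
        (p.2, p.1).2 * (p.2, p.1).1⁻¹ * y := by
        simp only []
        group
      rw [e2]
      exact h2
    obtain ⟨p, hp, hfi⟩ := Subgroup.exists_finiteIndex_of_leftCoset_cover
      (H := fun _ => Delta A) hcov
    exact hfi
  exact LF_of_finiteIndex (Delta A) (LF_Delta tor)

end Pool.Agent.FourGp.H99
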