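import Mathlib

set_option autoImplicit false

/-! # Four-groups without fusion: dihedral groups, the frame lemma -/

universe u

namespace Pool.Agent.FourGp.H99

variable {G : Type u} [Group G]

/-- Elements of odd order. -/
def Odd' (g : G) : Prop := ∃ n : ℕ, g ^ (2 * n + 1) = 1

theorem odd_one : Odd' (1 : G) := ⟨0, by simp⟩

theorem Odd'.inv {g : G} (h : Odd' g) : Odd' g⁻¹ := by
  obtain ⟨n, hn⟩ := h
  exact ⟨n, by rw [inv_pow, hn, inv_one]⟩

theorem Odd'.pow {g : G} (h : Odd' g) (k : ℕ) : Odd' (g ^ k) := by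
  obtain ⟨n, hn⟩ := h
  exact ⟨n, by rw [← pow_mul, mul_comm, pow_mul, hn, one_pow]⟩

theorem Odd'.conj {g : G} (h : Odd' g) (k : G) : Odd' (k⁻¹ * g * k) := by
  obtain ⟨n, hn⟩ := h
  refine ⟨n, ?_⟩
  have : k⁻¹ * g * k = k⁻¹ * g * (k⁻¹)⁻¹ := by rw [inv_inv]
  rw [this, conj_pow, hn]
  group

theorem Odd'.mul {g h : G} (hg : Odd' g) (hh : Odd' h) (hc : g * h = h * g) : Odd' (g * h) := by
  obtain ⟨n, hn⟩ := hg
  obtain ⟨m, hm⟩ := hh
  refine ⟨2 * n * m + n + m, ?_⟩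
  have e : 2 * (2 * n * m + n + m) + 1 = (2 * n + 1) * (2 * m + 1) := by ring
  have hc' : Commute g h := hc
  rw [hc'.mul_pow, e, pow_mul, hn, one_pow, one_mul, mul_comm (2 * n + 1), pow_mul, hm, one_pow]

/-- An element of odd order and of order at most two is trivial. -/
theorem Odd'.eq_one {g : G} (h : Odd' g) (h2 : g * g = 1) : g = 1 := by
  obtain ⟨n, hn⟩ := h
  rwa [pow_succ, pow_mul, pow_two, h2, one_pow, one_mul] at hn

/-- Square roots of elements of odd order. -/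
theorem Odd'.sqrt {g : G} (h : Odd' g) : ∃ k : ℕ, g ^ k * g ^ k = g := by
  obtain ⟨n, hn⟩ := h
  refine ⟨n + 1, ?_⟩
  rw [← pow_add]
  have : n + 1 + (n + 1) = 2 * n + 1 + 1 := by ring
  rw [this, pow_succ, hn, one_mul]

theorem inv_of_sq {s : G} (h : s * s = 1) : s⁻¹ = s := inv_eq_of_mul_eq_one_right h

theorem conj_inv_pow {s v : G} (hs : s * s = 1) (h : s * v * s = v⁻¹) (k : ℕ) :
    s * v ^ k * s = (v ^ k)⁻¹ := by
  have e : s * v * s⁻¹ = v⁻¹ := by rw [inv_of_sq hs, h]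
  have : s * v ^ k * s⁻¹ = (s * v * s⁻¹) ^ k := by rw [conj_pow]
  rw [inv_of_sq hs] at this
  rw [this, h, inv_pow]

/-- An involution times an inverted element of odd order is a conjugate of the involution. -/
theorem mul_odd {s v : G} (hs : s * s = 1) (hv : Odd' v) (h : s * v * s = v⁻¹) :
    ∃ k : ℕ, (v ^ k)⁻¹ * s * v ^ k = s * v := by
  obtain ⟨k, hk⟩ := hv.sqrt
  refine ⟨k, ?_⟩
  have h1 := conj_inv_pow hs h k
  calc (v ^ k)⁻¹ * s * v ^ k = (s * v ^ k * s) * s * v ^ k := by rw [h1]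
    _ = s * v ^ k * (s * s) * v ^ k := by group
    _ = s * (v ^ k * v ^ k) := by rw [hs]; group
    _ = s * v := by rw [hk]

theorem mul_inv_self {s t : G} (hs : s * s = 1) (ht : t * t = 1) :
    s * (s * t) * s = (s * t)⁻¹ := by
  rw [mul_inv_rev, inv_of_sq hs, inv_of_sq ht]
  calc s * (s * t) * s = (s * s) * t * s := by group
    _ = t * s := by rw [hs]; group

/-- Dihedral groups. -/
theorem dih (tor : ∀ g : G, ∃ n : ℕ, 0 < n ∧ g ^ n = 1) {s t : G} (hs : s * s = 1)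
    (ht : t * t = 1) :
    Odd' (s * t) ∨
    ∃ k : ℕ, (s * t) ^ k * (s * t) ^ k = 1 ∧ (s * t) ^ k ≠ 1 ∧
      (Odd' ((s * t) ^ k * (s * t)) ∨ ∃ l : ℕ, (s * t) ^ l * (s * t) ^ l = (s * t) ^ k) := by
  have hfin : 0 < orderOf (s * t) := by
    obtain ⟨n, hn, h⟩ := tor (s * t)
    exact orderOf_pos_iff.2 (isOfFinOrder_iff_pow_eq_one.2 ⟨n, hn, h⟩)
  set n := orderOf (s * t) with hn
  rcases Nat.even_or_odd' n with ⟨m, hm | hm⟩
  · right
    refine ⟨m, ?_, ?_, ?_⟩
    · rw [← pow_add, ← two_mul, ← hm, hn, pow_orderOf_eq_one]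
    · intro e
      have h1 := orderOf_dvd_of_pow_eq_one e
      rw [← hn, hm] at h1
      have h2 := Nat.le_of_dvd (by omega) h1
      omega
    · rcases Nat.even_or_odd' m with ⟨l, hl | hl⟩
      · right
        exact ⟨l, by rw [← pow_add, ← two_mul, ← hl]⟩
      · left
        refine ⟨l, ?_⟩
        have e1 : (s * t) ^ m * (s * t) = ((s * t) ^ 2) ^ (l + 1) := by
          rw [← pow_succ, ← pow_mul]
          congr 1
          omega
        rw [e1, ← pow_mul, ← pow_mul]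
        have e2 : 2 * ((l + 1) * (2 * l + 1)) = n * (l + 1) := by
          rw [hm, hl]; ring
        rw [e2, pow_mul, hn, pow_orderOf_eq_one, one_pow]
  · left
    exact ⟨m, by rw [← hm, hn, pow_orderOf_eq_one]⟩

/-- `t` is a conjugate of `s`. -/
def cl (s t : G) : Prop := ∃ g : G, t = g⁻¹ * s * g

theorem cl_refl (s : G) : cl s s := ⟨1, by group⟩

theorem cl.symm {s t : G} (h : cl s t) : cl t s := by
  obtain ⟨g, rfl⟩ := h
  exact ⟨g⁻¹, by group⟩

theorem cl.trans {s t r : G} (h : cl s t) (h' : cl t r) : cl s r := by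
  obtain ⟨g, rfl⟩ := h
  obtain ⟨k, rfl⟩ := h'
  exact ⟨g * k, by group⟩

theorem cl.conj {s t : G} (h : cl s t) (g : G) : cl s (g⁻¹ * t * g) := h.trans ⟨g, rfl⟩

theorem cl.sq {s t : G} (h : cl s t) (hs : s * s = 1) : t * t = 1 := by
  obtain ⟨g, rfl⟩ := h
  calc g⁻¹ * s * g * (g⁻¹ * s * g) = g⁻¹ * (s * s) * g := by group
    _ = 1 := by rw [hs]; group

theorem cl.ne_one {s t : G} (h : cl s t) (hs : s ≠ 1) : t ≠ 1 := by
  obtain ⟨g, rfl⟩ := h
  intro e
  apply hs
  calc s = g * (g⁻¹ * s * g) * g⁻¹ := by group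
    _ = 1 := by rw [e]; group

/-- In the odd case the two involutions are conjugate by a power of `s t`. -/
theorem odd_conj {s t : G} (hs : s * s = 1) (ht : t * t = 1) (h : Odd' (s * t)) :
    ∃ k : ℕ, ((s * t) ^ k)⁻¹ * s * (s * t) ^ k = t := by
  obtain ⟨k, hk⟩ := mul_odd hs h (mul_inv_self hs ht)
  refine ⟨k, ?_⟩
  rw [hk, ← mul_assoc, hs, one_mul]

theorem odd_cl {s t : G} (hs : s * s = 1) (ht : t * t = 1) (h : Odd' (s * t)) : cl s t := by
  obtain ⟨k, hk⟩ := odd_conj hs ht h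
  exact ⟨_, hk.symm⟩

/-- `w` normalises: `w² = e`, `s w s = w⁻¹` gives `w⁻¹ s w = s e`. -/
theorem conj_root {s w e : G} (hs : s * s = 1) (h : s * w * s = w⁻¹) (hw : w * w = e) :
    w⁻¹ * s * w = s * e := by
  calc w⁻¹ * s * w = (s * w * s) * s * w := by rw [h]
    _ = s * w * (s * s) * w := by group
    _ = s * (w * w) := by rw [hs]; group
    _ = s * e := by rw [hw]

/-- A four-group `{1, a, b, c}` in a periodic group `G` with `N_G(R) = C_G(R)` and such that
`C_G(R) / R` has no involutions. -/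
structure Hyp (a b c : G) : Prop where
  tor : ∀ g : G, ∃ n : ℕ, 0 < n ∧ g ^ n = 1
  aa : a * a = 1
  bb : b * b = 1
  cc : c * c = 1
  ab : a * b = c
  bc : b * c = a
  ca : c * a = b
  a1 : a ≠ 1
  b1 : b ≠ 1
  c1 : c ≠ 1
  inv : ∀ t : G, t * a = a * t → t * b = b * t → t * t = 1 → t = 1 ∨ t = a ∨ t = b ∨ t = c
  four : ∀ w : G, w * a = a * w → w * b = b * w → w * w = a ∨ w * w = b ∨ w * w = c → False
  nor : ∀ g : G, (g⁻¹ * a * g = a ∨ g⁻¹ * a * g = b ∨ g⁻¹ * a * g = c) →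
    (g⁻¹ * b * g = a ∨ g⁻¹ * b * g = b ∨ g⁻¹ * b * g = c) → g * a = a * g ∧ g * b = b * g

namespace Hyp

variable {a b c : G}

theorem comm_c {w : G} (h : Hyp a b c) (h1 : w * a = a * w) (h2 : w * b = b * w) :
    w * c = c * w := by
  rw [← h.ab, ← mul_assoc, h1, mul_assoc, h2, mul_assoc]

theorem ba (h : Hyp a b c) : b * a = c := by
  calc b * a = b * (b * c) := by rw [h.bc]
    _ = (b * b) * c := by group
    _ = c := by rw [h.bb, one_mul]

theorem cb (h : Hyp a b c) : c * b = a := by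
  calc c * b = (a * b) * b := by rw [h.ab]
    _ = a * (b * b) := by group
    _ = a := by rw [h.bb, mul_one]

theorem ac (h : Hyp a b c) : a * c = b := by
  calc a * c = a * (a * b) := by rw [h.ab]
    _ = (a * a) * b := by group
    _ = b := by rw [h.aa, one_mul]

theorem ne_ab (h : Hyp a b c) : a ≠ b := fun e => h.c1 (by rw [← h.ab, ← e, h.aa])

theorem rot (h : Hyp a b c) : Hyp b c a where
  tor := h.tor
  aa := h.bb
  bb := h.cc
  cc := h.aa
  ab := h.bc
  bc := h.ca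
  ca := h.ab
  a1 := h.b1
  b1 := h.c1
  c1 := h.a1
  inv := fun t h1 h2 h3 => by
    have h4 : t * a = a * t := by rw [← h.bc, ← mul_assoc, h1, mul_assoc, h2, mul_assoc]
    have := h.inv t h4 h1 h3
    tauto
  four := fun w h1 h2 h3 => by
    have h4 : w * a = a * w := by rw [← h.bc, ← mul_assoc, h1, mul_assoc, h2, mul_assoc]
    exact h.four w h4 h1 (by tauto)
  nor := fun g h1 h2 => by
    have h3 : g⁻¹ * a * g = a ∨ g⁻¹ * a * g = b ∨ g⁻¹ * a * g = c := by
      have e : g⁻¹ * a * g = (g⁻¹ * b * g) * (g⁻¹ * c * g) := by rw [← h.bc]; group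
      rw [e]
      have hne : g⁻¹ * b * g ≠ g⁻¹ * c * g := by
        intro e1
        have e2 : b = c := by
          calc b = g * (g⁻¹ * b * g) * g⁻¹ := by group
            _ = g * (g⁻¹ * c * g) * g⁻¹ := by rw [e1]
            _ = c := by group
        apply h.a1
        rw [← h.bc, ← e2, h.bb]
      rcases h1 with e1 | e1 | e1 <;> rcases h2 with e2 | e2 | e2 <;> rw [e1, e2] at hne ⊢
      · exact absurd rfl hne
      · exact Or.inl h.bc
      · exact Or.inr (Or.inr h.ba)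
      · exact Or.inl h.cb
      · exact absurd rfl hne
      · exact Or.inr (Or.inl h.ca)
      · exact Or.inr (Or.inr h.ab)
      · exact Or.inr (Or.inl h.ac)
      · exact absurd rfl hne
    have h4 := h.nor g h3 (by tauto)
    exact ⟨h4.2, h.comm_c h4.1 h4.2⟩

theorem swap (h : Hyp a b c) : Hyp b a c where
  tor := h.tor
  aa := h.bb
  bb := h.aa
  cc := h.cc
  ab := h.ba
  bc := h.ac
  ca := h.cb
  a1 := h.b1
  b1 := h.a1
  c1 := h.c1
  inv := fun t h1 h2 h3 => by have := h.inv t h2 h1 h3; tauto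
  four := fun w h1 h2 h3 => h.four w h2 h1 (by tauto)
  nor := fun g h1 h2 => by have := h.nor g (by tauto) (by tauto); tauto

/-- `(a, b, c) → (a, c, b)`. -/
theorem swap' (h : Hyp a b c) : Hyp a c b := h.swap.rot

theorem conj (h : Hyp a b c) (k : G) : Hyp (k⁻¹ * a * k) (k⁻¹ * b * k) (k⁻¹ * c * k) where
  tor := h.tor
  aa := (cl.sq ⟨k, rfl⟩ h.aa)
  bb := (cl.sq ⟨k, rfl⟩ h.bb)
  cc := (cl.sq ⟨k, rfl⟩ h.cc)
  ab := by rw [← h.ab]; group
  bc := by rw [← h.bc]; group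
  ca := by rw [← h.ca]; group
  a1 := cl.ne_one ⟨k, rfl⟩ h.a1
  b1 := cl.ne_one ⟨k, rfl⟩ h.b1
  c1 := cl.ne_one ⟨k, rfl⟩ h.c1
  inv := fun t h1 h2 h3 => by
    have e : ∀ x : G, t * (k⁻¹ * x * k) = (k⁻¹ * x * k) * t →
        (k * t * k⁻¹) * x = x * (k * t * k⁻¹) := by
      intro x hx
      calc (k * t * k⁻¹) * x = k * (t * (k⁻¹ * x * k)) * k⁻¹ := by group
        _ = k * ((k⁻¹ * x * k) * t) * k⁻¹ := by rw [hx]
        _ = x * (k * t * k⁻¹) := by group
    have e3 : k * t * k⁻¹ * (k * t * k⁻¹) = 1 := by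
      calc k * t * k⁻¹ * (k * t * k⁻¹) = k * (t * t) * k⁻¹ := by group
        _ = 1 := by rw [h3]; group
    have e4 : t = k⁻¹ * (k * t * k⁻¹) * k := by group
    rcases h.inv _ (e a h1) (e b h2) e3 with e5 | e5 | e5 | e5
    · left; rw [e4, e5]; group
    · right; left; rw [e4, e5]
    · right; right; left; rw [e4, e5]
    · right; right; right; rw [e4, e5]
  four := fun w h1 h2 h3 => by
    have e : ∀ x : G, w * (k⁻¹ * x * k) = (k⁻¹ * x * k) * w →
        (k * w * k⁻¹) * x = x * (k * w * k⁻¹) := by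
      intro x hx
      calc (k * w * k⁻¹) * x = k * (w * (k⁻¹ * x * k)) * k⁻¹ := by group
        _ = k * ((k⁻¹ * x * k) * w) * k⁻¹ := by rw [hx]
        _ = x * (k * w * k⁻¹) := by group
    have e' : ∀ x : G, w * w = k⁻¹ * x * k → (k * w * k⁻¹) * (k * w * k⁻¹) = x := by
      intro x hx
      calc (k * w * k⁻¹) * (k * w * k⁻¹) = k * (w * w) * k⁻¹ := by group
        _ = x := by rw [hx]; group
    refine h.four (k * w * k⁻¹) (e a h1) (e b h2) ?_
    rcases h3 with h3 | h3 | h3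
    · exact Or.inl (e' a h3)
    · exact Or.inr (Or.inl (e' b h3))
    · exact Or.inr (Or.inr (e' c h3))
  nor := fun g h1 h2 => by
    have e : ∀ x y : G, g⁻¹ * (k⁻¹ * x * k) * g = k⁻¹ * y * k →
        (k * g * k⁻¹)⁻¹ * x * (k * g * k⁻¹) = y := by
      intro x y hx
      calc (k * g * k⁻¹)⁻¹ * x * (k * g * k⁻¹) = k * (g⁻¹ * (k⁻¹ * x * k) * g) * k⁻¹ := by group
        _ = y := by rw [hx]; group
    have h3 := h.nor (k * g * k⁻¹) (by
      rcases h1 with h1 | h1 | h1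
      · exact Or.inl (e _ _ h1)
      · exact Or.inr (Or.inl (e _ _ h1))
      · exact Or.inr (Or.inr (e _ _ h1))) (by
      rcases h2 with h2 | h2 | h2
      · exact Or.inl (e _ _ h2)
      · exact Or.inr (Or.inl (e _ _ h2))
      · exact Or.inr (Or.inr (e _ _ h2)))
    have e' : ∀ x : G, (k * g * k⁻¹) * x = x * (k * g * k⁻¹) →
        g * (k⁻¹ * x * k) = (k⁻¹ * x * k) * g := by
      intro x hx
      calc g * (k⁻¹ * x * k) = k⁻¹ * ((k * g * k⁻¹) * x) * k := by group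
        _ = k⁻¹ * (x * (k * g * k⁻¹)) * k := by rw [hx]
        _ = (k⁻¹ * x * k) * g := by group
    exact ⟨e' a h3.1, e' b h3.2⟩

end Hyp

end Pool.Agent.FourGp.H99
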