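import Pool.Agent.Lib.MP_fb3619_al.Base3
import Pool.Agent.Lib.MP_fb3619_al.H99.Core
import Pool.Agent.Lib.MP_fb3619_al.H99.Loc

set_option autoImplicit false

/-! # Four-groups without fusion: local finiteness -/

universe u

namespace Pool.Agent.FourGp.H99

open Pool.Agent.FourGp

variable {G : Type u} [Group G] {a b c : G}

theorem conj2 {s x y : G} (hs : s * s = 1) : s * (x * y) * s = (s * x * s) * (s * y * s) := by
  calc s * (x * y) * s = s * x * 1 * y * s := by group
    _ = s * x * (s * s) * y * s := by rw [hs]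
    _ = (s * x * s) * (s * y * s) := by group

/-- `C_G(a)` is locally finite if `C_G(R)` is finite. -/
theorem Hyp.LF_cent (h : Hyp a b c) (hfin : {w : G | w * a = a * w ∧ w * b = b * w}.Finite) :
    LF (Subgroup.centralizer ({a} : Set G)) := by
  have hab : b * a = a * b := by rw [h.ba, h.ab]
  let σ : Subgroup.centralizer ({a} : Set G) →* Subgroup.centralizer ({a} : Set G) :=
    { toFun := fun x => ⟨b * x.1 * b, by
        have h1 : Commute x.1 a := Subgroup.mem_centralizer_singleton_iff.1 x.2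
        have h2 : Commute b a := hab
        exact Subgroup.mem_centralizer_singleton_iff.2 ((h2.mul_left h1).mul_left h2)⟩
      map_one' := by
        apply Subtype.ext
        change b * 1 * b = 1
        rw [mul_one, h.bb]
      map_mul' := by
        intro x y
        apply Subtype.ext
        exact conj2 h.bb }
  refine shunkov (fun g => ?_) σ {w | w.1 * b = b * w.1} ?_ {v | Jm a b v.1} ?_ ?_
  · obtain ⟨n, hn, e⟩ := h.tor g.1
    exact ⟨n, hn, Subtype.ext e⟩
  · refine Set.Finite.of_finite_image (f := Subtype.val) (hfin.subset ?_)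
      Subtype.val_injective.injOn
    rintro _ ⟨w, hw, rfl⟩
    exact ⟨Subgroup.mem_centralizer_singleton_iff.1 w.2, hw⟩
  · intro v hv
    apply Subtype.ext
    exact hv.inv
  · intro g
    have hg : g.1 * a = a * g.1 := Subgroup.mem_centralizer_singleton_iff.1 g.2
    obtain ⟨w, v, e, hwb, hwa, hv⟩ := h.swap.decC hg
    exact ⟨⟨w, Subgroup.mem_centralizer_singleton_iff.2 hwa⟩, hwb,
      ⟨v, Subgroup.mem_centralizer_singleton_iff.2 hv.comm⟩, hv, Subtype.ext e⟩

/-- The main step. -/
theorem Hyp.LF_all (hM : MainS.{u}) (h : Hyp a b c) (hb : Good b a) (hc : Good c a)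
    (hfin : {w : G | w * a = a * w ∧ w * b = b * w}.Finite) : LF G := by
  have hN := h.UU_normal
  have hab : a * b = b * a := by rw [h.ba, h.ab]
  have h1 : LF (UU a b c) := by
    refine hM (UU a b c) (MulAut.conjNormal a) (MulAut.conjNormal b) ⟨?_, ?_, ?_, ?_, ?_⟩
    · intro k
      apply Subtype.ext
      rw [MulAut.conjNormal_apply, MulAut.conjNormal_apply, inv_of_sq h.aa]
      calc a * (a * k.1 * a) * a = (a * a) * k.1 * (a * a) := by group
        _ = k.1 := by rw [h.aa, one_mul, mul_one]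
    · intro k
      apply Subtype.ext
      rw [MulAut.conjNormal_apply, MulAut.conjNormal_apply, inv_of_sq h.bb]
      calc b * (b * k.1 * b) * b = (b * b) * k.1 * (b * b) := by group
        _ = k.1 := by rw [h.bb, one_mul, mul_one]
    · intro k
      apply Subtype.ext
      rw [MulAut.conjNormal_apply, MulAut.conjNormal_apply, MulAut.conjNormal_apply,
        MulAut.conjNormal_apply, inv_of_sq h.aa, inv_of_sq h.bb]
      calc a * (b * k.1 * b) * a = (a * b) * k.1 * (b * a) := by group
        _ = (b * a) * k.1 * (a * b) := by rw [hab]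
        _ = b * (a * k.1 * a) * b := by group
    · intro k
      obtain ⟨n, hn⟩ := h.UU_odd hb hc k.2
      exact ⟨n, Subtype.ext hn⟩
    · intro k h2 h3
      have e2 := congrArg Subtype.val h2
      have e3 := congrArg Subtype.val h3
      rw [MulAut.conjNormal_apply, inv_of_sq h.aa] at e2
      rw [MulAut.conjNormal_apply, inv_of_sq h.bb] at e3
      apply Subtype.ext
      refine h.UU_cent hb hc k.2 ?_ ?_
      · calc k.1 * a = (a * k.1 * a) * a := by rw [e2]
          _ = a * k.1 * (a * a) := by group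
          _ = a * k.1 := by rw [h.aa, mul_one]
      · calc k.1 * b = (b * k.1 * b) * b := by rw [e3]
          _ = b * k.1 * (b * b) := by group
          _ = b * k.1 := by rw [h.bb, mul_one]
  refine LF_ext (UU a b c) h1 ?_
  refine LF_of_surj ((QuotientGroup.mk' (UU a b c)).comp
    (Subgroup.centralizer ({a} : Set G)).subtype) ?_ (h.LF_cent hfin)
  intro q
  obtain ⟨g, rfl⟩ := QuotientGroup.mk'_surjective (UU a b c) q
  obtain ⟨k, u, e, hk, hu⟩ := h.dec_cent g
  refine ⟨⟨k, Subgroup.mem_centralizer_singleton_iff.2 hk⟩, ?_⟩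
  change QuotientGroup.mk' (UU a b c) k = QuotientGroup.mk' (UU a b c) g
  rw [e, map_mul]
  have h2 : QuotientGroup.mk' (UU a b c) u = 1 := by
    rw [← MonoidHom.mem_ker, QuotientGroup.ker_mk']
    exact hu
  rw [h2, mul_one]

/-- Products of two conjugates of `a` in `C_G(b)`. -/
theorem Hyp.odd_aa (h : Hyp a b c) {g : G} (hg : g * b = b * g) : Odd' (a * (g⁻¹ * a * g)) := by
  set t := g⁻¹ * a * g with ht
  have htt : t * t = 1 := cl.sq ⟨g, rfl⟩ h.aa
  have ht1 : t ≠ 1 := cl.ne_one ⟨g, rfl⟩ h.a1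
  have hct : cl a t := ⟨g, rfl⟩
  have hab : a * b = b * a := by rw [h.ab, h.ba]
  have htb : t * b = b * t := by
    have h1 : Commute g b := hg
    have h2 : Commute a b := hab
    exact (h1.inv_left.mul_left h2).mul_left h1
  have hne : t ≠ b := by
    intro e
    rw [e] at hct
    exact h.nc hct
  rcases h.rot.s1 htt ht1 htb hne with h1 | h1
  · exact absurd (odd_cl h.cc htt h1) (h.ncls' hct)
  · exact h1

/-- If `C_G(R) = R`, the elements of odd order of `C_G(b)` inverted by `a` commute. -/
theorem Hyp.good_self (h : Hyp a b c)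
    (hs : ∀ w : G, w * a = a * w → w * b = b * w → w = 1 ∨ w = a ∨ w = b ∨ w = c) : Good b a := by
  intro u v hu hv
  -- `u v` has odd order
  have hcu : Commute u b := hu.comm
  have hcv : Commute v b := hv.comm
  have hodd : Odd' (u * v) := by
    obtain ⟨i, hi⟩ := mul_odd h.aa (hu.inv' h.aa).odd (hu.inv' h.aa).inv
    obtain ⟨j, hj⟩ := mul_odd h.aa hv.odd hv.inv
    have hua : u * a = a * u⁻¹ := by
      rw [← hu.inv]
      calc u * a = 1 * u * a := by group
        _ = a * (a * u * a) := by rw [← h.aa]; group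
    have e1 : u * v = (a * u⁻¹) * (a * v) := by
      calc u * v = u * 1 * v := by group
        _ = (u * a) * (a * v) := by rw [← h.aa]; group
        _ = _ := by rw [hua]
    rw [← hi, ← hj] at e1
    set p := u⁻¹ ^ i with hp
    set q := v ^ j with hq
    have hpc : Commute p b := hcu.inv_left.pow_left i
    have hqc : Commute q b := hcv.pow_left j
    have hg : (q * p⁻¹) * b = b * (q * p⁻¹) := hqc.mul_left hpc.inv_left
    have h1 := (h.odd_aa hg).conj p
    have e2 : p⁻¹ * (a * ((q * p⁻¹)⁻¹ * a * (q * p⁻¹))) * p = u * v := by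
      rw [e1]; group
    rwa [e2] at h1
  obtain ⟨w, j, e, hwa, hwb, hj⟩ := h.decC (g := u * v) (hcu.mul_left hcv)
  have hinvo : ∀ s : G, s * s = 1 → s ≠ 1 → s * j * s = j⁻¹ → u * v = s * j → False := by
    intro s hss hs1 hsj e1
    have h1 : (u * v) * (u * v) = 1 := by
      rw [e1]
      calc s * j * (s * j) = (s * j * s) * j := by group
        _ = 1 := by rw [hsj]; group
    have h2 := hodd.eq_one h1
    rw [e1] at h2
    have h3 : s = j⁻¹ := eq_inv_of_mul_eq_one_left h2
    have h4 := hj.odd.inv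
    rw [← h3] at h4
    exact hs1 (h4.eq_one hss)
  rcases hs w hwa hwb with rfl | rfl | rfl | rfl
  · rw [one_mul] at e
    have h1 : a * (u * v) * a = (u * v)⁻¹ := by rw [e]; exact hj.inv
    rw [conj2 h.aa, hu.inv, hv.inv] at h1
    have h2 := congrArg (fun x => x⁻¹) h1
    simp only [mul_inv_rev, inv_inv] at h2
    exact h2.symm
  · exact (hinvo _ h.aa h.a1 hj.inv e).elim
  · exfalso
    have h1 : (u * v) * j⁻¹ = w := by rw [e]; group
    have h2 : (u * v) * j⁻¹ = j⁻¹ * (u * v) := by
      rw [e]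
      have h3 : Commute j w := hj.comm
      calc w * j * j⁻¹ = j⁻¹ * (j * w) := by group
        _ = j⁻¹ * (w * j) := by rw [h3.eq]
    have h3 := hodd.mul hj.odd.inv h2
    rw [h1] at h3
    exact h.b1 (h3.eq_one h.bb)
  · exact (hinvo _ h.cc h.c1 (h.jm_ac hj).inv e).elim

/-- `u` has odd order, centralizes `r` and is inverted by the elements of `R` outside `⟨r⟩`. -/
def InvR (R : Subgroup G) (r u : G) : Prop :=
  u * r = r * u ∧ (∃ n : ℕ, u ^ (2 * n + 1) = 1) ∧
    ∀ s ∈ R, s ≠ 1 → s ≠ r → s⁻¹ * u * s = u⁻¹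

/-- The elements of odd order of `C_G(r)` inverted by `R` commute. -/
def GoodR (R : Subgroup G) (r : G) : Prop :=
  ∀ u v : G, InvR R r u → InvR R r v → u * v = v * u

theorem fourR (R : Subgroup G) (h4 : Nat.card R = 4) (hR : ∀ r ∈ R, r * r = 1) {r s : G}
    (hr : r ∈ R) (hs : s ∈ R) (hr1 : r ≠ 1) (hs1 : s ≠ 1) (hrs : r ≠ s) :
    r * s = s * r ∧ r * s ≠ 1 ∧ ∀ x ∈ R, x = 1 ∨ x = r * s ∨ x = r ∨ x = s := by
  classical
  have hrr := hR r hr
  have hss := hR s hs
  have hrs' := hR _ (R.mul_mem hr hs)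
  have hc : r * s = s * r := by
    calc r * s = 1 * (r * s) * 1 := by group
      _ = (s * s) * (r * s) * (r * r) := by rw [hss, hrr]
      _ = s * (s * r * (s * r)) * r := by group
      _ = s * r := by rw [hR _ (R.mul_mem hs hr)]; group
  have h1 : r * s ≠ 1 := by
    intro e
    apply hrs
    calc r = r * (s * s) := by rw [hss, mul_one]
      _ = (r * s) * s := by group
      _ = s := by rw [e, one_mul]
  refine ⟨hc, h1, fun x hx => ?_⟩
  have hfin : (R : Set G).Finite := by
    have : Finite R := Nat.finite_of_card_ne_zero (by rw [h4]; norm_num)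
    exact Set.toFinite _
  have hsub : (({1, r * s, r, s} : Finset G) : Set G) ⊆ (R : Set G) := by
    intro y hy
    simp only [Finset.coe_insert, Finset.coe_singleton, Set.mem_insert_iff,
      Set.mem_singleton_iff] at hy
    rcases hy with rfl | rfl | rfl | rfl
    · exact R.one_mem
    · exact R.mul_mem hr hs
    · exact hr
    · exact hs
  have hcard : (({1, r * s, r, s} : Finset G)).card = 4 := by
    rw [Finset.card_insert_of_notMem, Finset.card_insert_of_notMem, Finset.card_pair hrs]
    · simp only [Finset.mem_insert, Finset.mem_singleton, not_or]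
      refine ⟨fun e => hs1 ?_, fun e => hr1 ?_⟩
      · simpa using e
      · simpa using e
    · simp only [Finset.mem_insert, Finset.mem_singleton, not_or]
      exact ⟨fun e => h1 e.symm, fun e => hr1 e.symm, fun e => hs1 e.symm⟩
  have heq := Set.eq_of_subset_of_ncard_le hsub (by
    rw [Set.ncard_coe_finset, hcard]
    have : (R : Set G).ncard = Nat.card R := rfl
    rw [this, h4]) hfin
  have hx' : x ∈ (({1, r * s, r, s} : Finset G) : Set G) := by rw [heq]; exact hx
  simpa using hx'

/-- Theorem D. -/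
def TheoDS : Prop := ∀ (G : Type u) [Group G] (R : Subgroup G),
  (∀ g : G, ∃ n : ℕ, 0 < n ∧ g ^ n = 1) → Nat.card R = 4 → (∀ r ∈ R, r * r = 1) →
  Finite (Subgroup.centralizer (R : Set G)) →
  (∀ g ∈ Subgroup.centralizer (R : Set G), ∃ n : ℕ, g ^ (2 * n + 1) ∈ R) →
  (∀ g : G, (∀ r ∈ R, g⁻¹ * r * g ∈ R) → g ∈ Subgroup.centralizer (R : Set G)) →
  (∃ r ∈ R, ∃ s ∈ R, r ≠ 1 ∧ s ≠ 1 ∧ r ≠ s ∧ GoodR R r ∧ GoodR R s) →
  ∀ S : Subgroup G, S.FG → Finite S

theorem hyp_of (R : Subgroup G) (tor : ∀ g : G, ∃ n : ℕ, 0 < n ∧ g ^ n = 1)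
    (h4 : Nat.card R = 4) (hR : ∀ r ∈ R, r * r = 1)
    (hodd : ∀ g ∈ Subgroup.centralizer (R : Set G), ∃ n : ℕ, g ^ (2 * n + 1) ∈ R)
    (hnor : ∀ g : G, (∀ r ∈ R, g⁻¹ * r * g ∈ R) → g ∈ Subgroup.centralizer (R : Set G))
    {r s : G} (hr : r ∈ R) (hs : s ∈ R) (hr1 : r ≠ 1) (hs1 : s ≠ 1) (hrs : r ≠ s) :
    Hyp (r * s) r s ∧ ∀ w : G, w * (r * s) = (r * s) * w → w * r = r * w →
      w ∈ Subgroup.centralizer (R : Set G) := by
  obtain ⟨hc, h1, hall⟩ := fourR R h4 hR hr hs hr1 hs1 hrs
  have hrr := hR r hr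
  have hss := hR s hs
  have hrs' := hR _ (R.mul_mem hr hs)
  have hcen : ∀ w : G, w * (r * s) = (r * s) * w → w * r = r * w →
      w ∈ Subgroup.centralizer (R : Set G) := by
    intro w hw1 hw2
    rw [Subgroup.mem_centralizer_iff]
    intro x hx
    have c1 : Commute w (r * s) := hw1
    have c2 : Commute w r := hw2
    have c3 : Commute w s := by
      have : s = r⁻¹ * (r * s) := by group
      rw [this]
      exact c2.inv_right.mul_right c1
    rcases hall x hx with rfl | rfl | rfl | rfl
    · group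
    · exact hw1.symm
    · exact hw2.symm
    · exact c3.eq.symm
  have hcen' : ∀ w ∈ Subgroup.centralizer (R : Set G), ∀ x ∈ R, w * x = x * w := by
    intro w hw x hx
    rw [Subgroup.mem_centralizer_iff] at hw
    exact (hw x hx).symm
  refine ⟨?_, hcen⟩
  exact {
    tor := tor
    aa := hrs'
    bb := hrr
    cc := hss
    ab := by rw [hc, mul_assoc, hrr, mul_one]
    bc := rfl
    ca := by rw [← mul_assoc, ← hc, mul_assoc, hss, mul_one]
    a1 := h1
    b1 := hr1
    c1 := hs1
    inv := by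
      intro t ht1 ht2 ht3
      obtain ⟨n, hn⟩ := hodd t (hcen t ht1 ht2)
      have e : t ^ (2 * n + 1) = t := by
        rw [pow_succ, pow_mul, pow_two, ht3, one_pow, one_mul]
      rw [e] at hn
      exact hall t hn
    four := by
      intro w hw1 hw2 hw3
      obtain ⟨n, hn⟩ := hodd w (hcen w hw1 hw2)
      have h2 := hR _ hn
      have h3 : (w * w) ^ (2 * n + 1) = 1 := by
        rw [← h2, ← pow_two w, ← pow_mul, ← pow_add]
        congr 1
        ring
      have key : ∀ x : G, w * w = x → x * x = 1 → x ≠ 1 → False := by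
        intro x hx hxx hx1
        rw [hx] at h3
        exact hx1 ((show Odd' x from ⟨n, h3⟩).eq_one hxx)
      rcases hw3 with e | e | e
      · exact key _ e hrs' h1
      · exact key _ e hrr hr1
      · exact key _ e hss hs1
    nor := by
      intro g hg1 hg2
      have m1 : ∀ x : G, x = r * s ∨ x = r ∨ x = s → x ∈ R := by
        rintro x (rfl | rfl | rfl)
        · exact R.mul_mem hr hs
        · exact hr
        · exact hs
      have h2 : g ∈ Subgroup.centralizer (R : Set G) := by
        apply hnor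
        intro x hx
        rcases hall x hx with rfl | rfl | rfl | rfl
        · have : g⁻¹ * 1 * g = (1 : G) := by group
          rw [this]; exact R.one_mem
        · exact m1 _ hg1
        · exact m1 _ hg2
        · have e : g⁻¹ * x * g = (g⁻¹ * r * g)⁻¹ * (g⁻¹ * (r * x) * g) := by group
          rw [e]
          exact R.mul_mem (R.inv_mem (m1 _ hg2)) (m1 _ hg1)
      exact ⟨hcen' g h2 _ (R.mul_mem hr hs), hcen' g h2 _ hr⟩ }

theorem good_of (R : Subgroup G) (h4 : Nat.card R = 4) (hR : ∀ r ∈ R, r * r = 1)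
    {r s : G} (hr : r ∈ R) (hs : s ∈ R) (hr1 : r ≠ 1) (hs1 : s ≠ 1) (hrs : r ≠ s)
    (hg : GoodR R r) : Good r (r * s) := by
  obtain ⟨hc, h1, hall⟩ := fourR R h4 hR hr hs hr1 hs1 hrs
  have hrr := hR r hr
  have hss := hR s hs
  have hrs' := hR _ (R.mul_mem hr hs)
  have key : ∀ u : G, Jm r (r * s) u → InvR R r u := by
    intro u hu
    refine ⟨hu.comm, hu.odd, ?_⟩
    intro x hx hx1 hxr
    rcases hall x hx with rfl | rfl | rfl | rfl
    · exact absurd rfl hx1
    · rw [inv_of_sq hrs']; exact hu.inv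
    · exact absurd rfl hxr
    · rw [inv_of_sq hss, ← hu.inv]
      calc x * u * x = x * u * 1 * x := by group
        _ = x * (u * r) * (r * x) := by rw [← hrr]; group
        _ = x * (r * u) * (r * x) := by rw [hu.comm]
        _ = (x * r) * u * (r * x) := by group
        _ = (r * x) * u * (r * x) := by rw [hc]
  intro u v hu hv
  exact hg u v (key u hu) (key v hv)

theorem theoD (hM : MainS.{u}) : TheoDS.{u} := by
  intro G _ R tor h4 hR hfin hodd hnor ⟨r, hr, s, hs, hr1, hs1, hrs, hgr, hgs⟩
  obtain ⟨h, hcen⟩ := hyp_of R tor h4 hR hodd hnor hr hs hr1 hs1 hrs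
  have hb := good_of R h4 hR hr hs hr1 hs1 hrs hgr
  have hc := good_of R h4 hR hs hr hs1 hr1 hrs.symm hgs
  have e : s * r = r * s := (fourR R h4 hR hr hs hr1 hs1 hrs).1.symm
  rw [e] at hc
  refine h.LF_all hM hb hc (Set.Finite.subset (s := (Subgroup.centralizer (R : Set G) : Set G))
    (Set.toFinite _) ?_)
  rintro w ⟨hw1, hw2⟩
  exact hcen w hw1 hw2

/-- Theorem C: periodic groups with a self-normalizing four-subgroup are locally finite. -/
theorem theoC (hM : MainS.{u}) : ∀ (G : Type u) [Group G] (R : Subgroup G),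
    (∀ g : G, ∃ n : ℕ, 0 < n ∧ g ^ n = 1) → Nat.card R = 4 → (∀ r ∈ R, r * r = 1) →
    (∀ g : G, (∀ r ∈ R, g⁻¹ * r * g ∈ R) → g ∈ R) → ∀ S : Subgroup G, S.FG → Finite S := by
  classical
  intro G _ R tor h4 hR hnor
  have hab : ∀ x ∈ R, ∀ y ∈ R, x * y = y * x := by
    intro x hx y hy
    calc x * y = 1 * (x * y) * 1 := by group
      _ = (y * y) * (x * y) * (x * x) := by rw [hR x hx, hR y hy]
      _ = y * (y * x * (y * x)) * x := by group
      _ = y * x := by rw [hR _ (R.mul_mem hy hx)]; group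
  have hC : ∀ g ∈ Subgroup.centralizer (R : Set G), g ∈ R := by
    intro g hg
    rw [Subgroup.mem_centralizer_iff] at hg
    apply hnor
    intro r hr
    have : g⁻¹ * r * g = r := by rw [mul_assoc, hg r hr]; group
    rw [this]
    exact hr
  have hC' : ∀ g ∈ R, g ∈ Subgroup.centralizer (R : Set G) := by
    intro g hg
    rw [Subgroup.mem_centralizer_iff]
    intro r hr
    exact hab r hr g hg
  have hfinR : Finite R := Nat.finite_of_card_ne_zero (by rw [h4]; norm_num)
  have hfin : Finite (Subgroup.centralizer (R : Set G)) :=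
    Finite.of_injective (fun g => (⟨g.1, hC g.1 g.2⟩ : R)) (by
      intro x y hxy
      exact Subtype.ext (congrArg (fun z : R => z.1) hxy))
  -- two nontrivial elements
  obtain ⟨r, hr, hr1⟩ : ∃ r ∈ R, r ≠ 1 := by
    by_contra hne
    push Not at hne
    have : R = ⊥ := by
      rw [eq_bot_iff]
      intro x hx
      rw [Subgroup.mem_bot]
      exact hne x hx
    rw [this] at h4
    simp at h4
  obtain ⟨s, hs, hs1, hrs⟩ : ∃ s ∈ R, s ≠ 1 ∧ r ≠ s := by
    by_contra hne
    push Not at hne
    have hsub : (R : Set G) ⊆ (({1, r} : Finset G) : Set G) := by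
      intro x hx
      by_cases hx1 : x = 1
      · simp [hx1]
      · simp [← hne x hx hx1]
    have h1 := Set.ncard_le_ncard hsub (Finset.finite_toSet _)
    rw [Set.ncard_coe_finset] at h1
    have h2 : (R : Set G).ncard = Nat.card R := rfl
    have h3 := Finset.card_le_two (a := (1 : G)) (b := r)
    rw [h2, h4] at h1
    omega
  have hodd : ∀ g ∈ Subgroup.centralizer (R : Set G), ∃ n : ℕ, g ^ (2 * n + 1) ∈ R :=
    fun g hg => ⟨0, by simpa using hC g hg⟩
  have hnor' : ∀ g : G, (∀ r ∈ R, g⁻¹ * r * g ∈ R) → g ∈ Subgroup.centralizer (R : Set G) :=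
    fun g hg => hC' g (hnor g hg)
  obtain ⟨h, hcen⟩ := hyp_of R tor h4 hR hodd hnor' hr hs hr1 hs1 hrs
  have hall := (fourR R h4 hR hr hs hr1 hs1 hrs).2.2
  have hself : ∀ w : G, w * (r * s) = (r * s) * w → w * r = r * w →
      w = 1 ∨ w = r * s ∨ w = r ∨ w = s := fun w h1 h2 => hall w (hC w (hcen w h1 h2))
  have hb := h.good_self hself
  have hself' : ∀ w : G, w * (r * s) = (r * s) * w → w * s = s * w →
      w = 1 ∨ w = r * s ∨ w = s ∨ w = r := by
    intro w h1 h2
    have h3 : w * r = r * w := h.swap'.comm_c h1 h2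
    have := hself w h1 h3
    tauto
  have hc := h.swap'.good_self hself'
  refine h.LF_all hM hb hc (Set.Finite.subset (s := (Subgroup.centralizer (R : Set G) : Set G))
    (Set.toFinite _) ?_)
  rintro w ⟨hw1, hw2⟩
  exact hcen w hw1 hw2

end Pool.Agent.FourGp.H99
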