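import Pool.Agent.Lib.MP_fb3619_al.Main
import Pool.Agent.Lib.MP_fb3619_al.H78.Hyper
import Pool.Agent.Lib.MP_fb3619_al.H99.TheoD

set_option autoImplicit false

/-! # Periodic groups with a self-normalizing four-subgroup are locally finite -/

universe u

namespace Pool.Agent.FourGp.H99

open Pool.Agent.FourGp

/-- Theorem C in the form of `H78/Hyper.lean`. -/
theorem theoCS (hM : MainS.{u}) : TheoCS.{u} := theoC hM

theorem part4_theoC : TheoCS.{u} := theoCS part3_main

theorem part4_theoD : TheoDS.{u} := theoD part3_main

end Pool.Agent.FourGp.H99
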